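import Mathlib

namespace Pool.Agent.Results.MP_78a590_co.Disproof

open Matrix

/-- A real Hadamard matrix of order `n` (entries `±1`, so it is written over `ℤ`). -/
def IsHadamard {n : ℕ} (H : Matrix (Fin n) (Fin n) ℤ) : Prop :=
  (∀ i j, H i j = 1 ∨ H i j = -1) ∧ H * Hᵀ = (n : ℤ) • (1 : Matrix (Fin n) (Fin n) ℤ)

/-- `T` is a trade in `H`: some Hadamard matrix `H' ≠ H` differs from `H` exactly on `T`. -/
def IsTrade {n : ℕ} (H : Matrix (Fin n) (Fin n) ℤ) (T : Finset (Fin n × Fin n)) : Prop :=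
  ∃ H' : Matrix (Fin n) (Fin n) ℤ, IsHadamard H' ∧ H' ≠ H ∧
    ∀ i j, (i, j) ∈ T ↔ H' i j ≠ H i j

/-- A rectangular trade: a trade of the form `A × B`. -/
def IsRectTrade {n : ℕ} (H : Matrix (Fin n) (Fin n) ℤ) (T : Finset (Fin n × Fin n)) : Prop :=
  IsTrade H T ∧ ∃ A B : Finset (Fin n), T = A ×ˢ B

/-- `T` is the symmetric difference of a finite family of rectangular trades: a position lies in
`T` iff it lies in an odd number of members of the family. -/
def IsRectCombination {n : ℕ} (H : Matrix (Fin n) (Fin n) ℤ) (T : Finset (Fin n × Fin n)) : Prop :=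
  ∃ F : Finset (Finset (Fin n × Fin n)), (∀ R ∈ F, IsRectTrade H R) ∧
    ∀ x, x ∈ T ↔ Odd (F.filter fun R => x ∈ R).card

def H4 : Matrix (Fin 4) (Fin 4) ℤ := !![1, 1, 1, 1; 1, -1, 1, -1; 1, 1, -1, -1; 1, -1, -1, 1]

def T4 : Finset (Fin 4 × Fin 4) := {(0, 2), (1, 3), (2, 1), (3, 0)}

def H4' : Matrix (Fin 4) (Fin 4) ℤ := !![1, 1, -1, 1; 1, -1, 1, 1; 1, -1, -1, -1; -1, -1, -1, 1]

def P : Finset (Fin 4 × Fin 4) := {(0, 1), (0, 2), (1, 0), (1, 1), (2, 0), (2, 2)}

def flip (T : Finset (Fin 4 × Fin 4)) : Matrix (Fin 4) (Fin 4) ℤ :=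
  Matrix.of fun i j => if (i, j) ∈ T then -H4 i j else H4 i j

lemma H4_had : IsHadamard H4 := ⟨by decide, by decide⟩

lemma rect_even (A B : Finset (Fin 4))
    (h : ∀ i j, ∑ k, flip (A ×ˢ B) i k * flip (A ×ˢ B) j k = if i = j then 4 else 0) :
    Even (P.filter fun x => x ∈ A ×ˢ B).card := by
  revert A B
  decide +kernel

lemma rect_even' (R : Finset (Fin 4 × Fin 4)) (h : IsRectTrade H4 R) :
    Even (P.filter fun x => x ∈ R).card := by
  obtain ⟨⟨H', ⟨h1, h2⟩, -, h3⟩, A, B, rfl⟩ := h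
  have e : H' = flip (A ×ˢ B) := by
    ext i j
    have h4 := h3 i j
    have h5 := h1 i j
    have h6 := H4_had.1 i j
    simp only [flip, Matrix.of_apply]
    split_ifs with h7
    · have := h4.1 h7; omega
    · by_contra h8; exact h7 (h4.2 h8)
  refine rect_even A B fun i j => ?_
  have := congrFun (congrFun h2 i) j
  rw [e] at this
  simpa [Matrix.mul_apply, Matrix.one_apply] using this

/-- In the Sylvester Hadamard matrix of order `4` there is a trade (four entries, one in each row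
and column) which is not a symmetric difference of rectangular trades. -/
theorem result : ∃ (n : ℕ) (H : Matrix (Fin n) (Fin n) ℤ) (T : Finset (Fin n × Fin n)),
    IsHadamard H ∧ IsTrade H T ∧ ¬ IsRectCombination H T := by
  refine ⟨4, H4, T4, H4_had, ⟨H4', ⟨by decide, by decide⟩, by decide, by decide⟩, ?_⟩
  rintro ⟨F, hF, hT⟩
  have h1 : ∑ x ∈ P, (F.filter fun R => x ∈ R).card = ∑ R ∈ F, (P.filter fun x => x ∈ R).card := by
    simp only [Finset.card_filter]
    exact Finset.sum_comm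
  have h2 : Even (∑ R ∈ F, (P.filter fun x => x ∈ R).card) :=
    Finset.even_sum _ fun R hR => rect_even' R (hF R hR)
  rw [← h1] at h2
  have a1 := (hT (0, 2)).1 (by decide)
  have a2 := (hT (0, 1)).2.mt (by decide)
  have a3 := (hT (1, 0)).2.mt (by decide)
  have a4 := (hT (1, 1)).2.mt (by decide)
  have a5 := (hT (2, 0)).2.mt (by decide)
  have a6 := (hT (2, 2)).2.mt (by decide)
  rw [P, Finset.sum_insert (by decide), Finset.sum_insert (by decide), Finset.sum_insert (by decide),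
    Finset.sum_insert (by decide), Finset.sum_insert (by decide), Finset.sum_singleton] at h2
  rw [Nat.odd_iff] at a1 a2 a3 a4 a5 a6
  rw [Nat.even_iff] at h2
  omega

end Pool.Agent.Results.MP_78a590_co.Disproof
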